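import Mathlib

/-!
# The ratio of union page number to local page number is at least 3 / 2

The complete graph on six vertices has local page number `2` and union page number `3`. So the
largest possible ratio of union page number to local page number is at least `3 / 2`.
-/

set_option autoImplicit false

namespace Pool.Agent.Results.MP_1a9d8b_co.RatioThreeHalves

/-- `G` has a `k`-local book embedding: there are a spine order, given by an injective map `f` to
the natural numbers, and a page `P e` for every edge `e`, such that crossing edges have different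
pages, and at most `k` pages contain an edge at `v`, for every vertex `v`. (Two edges cross if and
only if they can be written `u v` and `x y` with `u ≺ x ≺ v ≺ y`.) -/
def LocalEmbedding {V : Type} (G : SimpleGraph V) (k : ℕ) : Prop :=
  ∃ (f : V → ℕ) (P : Sym2 V → ℕ), Function.Injective f ∧
    (∀ u v x y : V, G.Adj u v → G.Adj x y → f u < f x → f x < f v → f v < f y →
      P s(u, v) ≠ P s(x, y)) ∧
    ∀ v : V, {i : ℕ | ∃ w : V, G.Adj v w ∧ P s(v, w) = i}.encard ≤ (k : ℕ∞)

/-- the graph formed by the edges in the page `i` -/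
def pageGraph {V : Type} (G : SimpleGraph V) (P : Sym2 V → ℕ) (i : ℕ) : SimpleGraph V where
  Adj u v := G.Adj u v ∧ P s(u, v) = i
  symm := ⟨fun u v h => ⟨h.1.symm, by rw [Sym2.eq_swap]; exact h.2⟩⟩
  loopless := ⟨fun u h => G.loopless.irrefl u h.1⟩

/-- `G` has a union embedding with `k` pages: there are a spine order and a page `P e < k` for every
edge `e`, such that two crossing edges of the same page are in different connected components of the
graph formed by this page. -/
def UnionEmbedding {V : Type} (G : SimpleGraph V) (k : ℕ) : Prop :=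
  ∃ (f : V → ℕ) (P : Sym2 V → ℕ), Function.Injective f ∧
    (∀ u v : V, G.Adj u v → P s(u, v) < k) ∧
    ∀ u v x y : V, G.Adj u v → G.Adj x y → f u < f x → f x < f v → f v < f y →
      P s(u, v) = P s(x, y) → ¬ (pageGraph G P (P s(u, v))).Reachable u x

/-- the local page number -/
noncomputable def localPageNumber {V : Type} (G : SimpleGraph V) : ℕ :=
  sInf {k : ℕ | LocalEmbedding G k}

/-- the union page number -/
noncomputable def unionPageNumber {V : Type} (G : SimpleGraph V) : ℕ :=
  sInf {k : ℕ | UnionEmbedding G k}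

/-- the supremum of the ratios of union page number and local page number, over all finite graphs
with at least one edge -/
noncomputable def rho : ENNReal :=
  ⨆ (n : ℕ) (G : SimpleGraph (Fin n)) (_ : G ≠ ⊥),
    (unionPageNumber G : ENNReal) / (localPageNumber G : ENNReal)

/-- the pages of an embedding of the complete graph on six vertices -/
def pg (e : Sym2 (Fin 6)) : ℕ :=
  if e ∈ ({s(0, 1), s(1, 3), s(3, 4), s(0, 4), s(0, 3)} : Finset (Sym2 (Fin 6))) then 0
  else if e ∈ ({s(1, 2), s(2, 4), s(4, 5), s(1, 5), s(1, 4)} : Finset (Sym2 (Fin 6))) then 1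
  else 2

theorem pg_book : ∀ u v x y : Fin 6, u ≠ v → x ≠ y → u.val < x.val → x.val < v.val →
    v.val < y.val → pg s(u, v) ≠ pg s(x, y) := by
  decide +kernel

theorem pg_lt : ∀ u v : Fin 6, u ≠ v → pg s(u, v) < 3 := by
  decide +kernel

def pa (v : Fin 6) : ℕ := if v = 2 ∨ v = 5 then 1 else 0

def pb (v : Fin 6) : ℕ := if v = 1 ∨ v = 4 then 1 else 2

theorem pg_two : ∀ u v : Fin 6, u ≠ v → pg s(u, v) = pa u ∨ pg s(u, v) = pb u := by
  decide +kernel

theorem local_two : LocalEmbedding (⊤ : SimpleGraph (Fin 6)) 2 := by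
  refine ⟨fun v => v.val, pg, Fin.val_injective, ?_, ?_⟩
  · intro u v x y h1 h2 h3 h4 h5
    exact pg_book u v x y h1 h2 h3 h4 h5
  · intro v
    have h : {i : ℕ | ∃ w : Fin 6, (⊤ : SimpleGraph (Fin 6)).Adj v w ∧ pg s(v, w) = i} ⊆
        {pa v, pb v} := by
      rintro i ⟨w, hw, rfl⟩
      rcases pg_two v w hw with h | h
      · left; exact h
      · right; exact h
    refine (Set.encard_le_encard h).trans ?_
    refine (Set.encard_insert_le _ _).trans ?_
    rw [Set.encard_singleton]
    norm_num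

theorem union_three : UnionEmbedding (⊤ : SimpleGraph (Fin 6)) 3 := by
  refine ⟨fun v => v.val, pg, Fin.val_injective, ?_, ?_⟩
  · intro u v h
    exact pg_lt u v h
  · intro u v x y h1 h2 h3 h4 h5 h6
    exact absurd h6 (pg_book u v x y h1 h2 h3 h4 h5)

theorem sorted (f : Fin 6 → ℕ) (hf : Function.Injective f) :
    ∃ v : Fin 6 → Fin 6, Function.Injective v ∧ ∀ a b : Fin 6, a < b → f (v a) < f (v b) := by
  refine ⟨Tuple.sort f, (Tuple.sort f).injective, fun a b hab => ?_⟩
  have h := Tuple.monotone_sort f hab.le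
  simp only [Function.comp_apply] at h
  refine lt_of_le_of_ne h fun h' => ?_
  exact hab.ne ((Tuple.sort f).injective (hf h'))

theorem local_ge (k : ℕ) (h : LocalEmbedding (⊤ : SimpleGraph (Fin 6)) k) : 2 ≤ k := by
  by_contra hk
  obtain ⟨f, P, hf, h1, h2⟩ := h
  obtain ⟨v, hv, hs⟩ := sorted f hf
  have hne : ∀ a b : Fin 6, a ≠ b → (⊤ : SimpleGraph (Fin 6)).Adj (v a) (v b) :=
    fun a b hab => fun h => hab (hv h)
  have key : ∀ a b c : Fin 6, a ≠ b → a ≠ c → P s(v a, v b) = P s(v a, v c) := by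
    intro a b c hab hac
    have h3 : {i : ℕ | ∃ w : Fin 6, (⊤ : SimpleGraph (Fin 6)).Adj (v a) w ∧
        P s(v a, w) = i}.encard ≤ 1 := by
      refine (h2 (v a)).trans ?_
      have : k ≤ 1 := by omega
      exact_mod_cast this
    rw [Set.encard_le_one_iff] at h3
    exact h3 _ _ ⟨v b, hne a b hab, rfl⟩ ⟨v c, hne a c hac, rfl⟩
  have e1 : P s(v 0, v 2) = P s(v 0, v 1) := key 0 2 1 (by decide) (by decide)
  have e2 : P s(v 1, v 0) = P s(v 1, v 3) := key 1 0 3 (by decide) (by decide)
  have e3 : P s(v 0, v 1) = P s(v 1, v 0) := by rw [Sym2.eq_swap]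
  exact h1 (v 0) (v 2) (v 1) (v 3) (hne _ _ (by decide)) (hne _ _ (by decide))
    (hs _ _ (by decide)) (hs _ _ (by decide)) (hs _ _ (by decide)) (by rw [e1, e3, e2])

/-- `a, b, c, d` are in this cyclic order -/
def Alt (a b c d : Fin 6) : Prop :=
  (a < b ∧ b < c ∧ c < d) ∨ (b < c ∧ c < d ∧ d < a) ∨ (c < d ∧ d < a ∧ a < b) ∨
    (d < a ∧ a < b ∧ b < c)

instance (a b c d : Fin 6) : Decidable (Alt a b c d) := by unfold Alt; infer_instance

theorem rot_ne : ∀ r : Fin 6, (0 + r ≠ 1 + r) ∧ (0 + r ≠ 2 + r) ∧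
    (0 + r ≠ 3 + r) ∧ (1 + r ≠ 2 + r) ∧ (1 + r ≠ 3 + r) ∧ (1 + r ≠ 4 + r) ∧
    (2 + r ≠ 5 + r) := by
  decide

theorem rot_alt : ∀ r : Fin 6, Alt (0 + r) (1 + r) (3 + r) (4 + r) ∧
    Alt (0 + r) (2 + r) (3 + r) (5 + r) ∧ Alt (0 + r) (1 + r) (2 + r) (3 + r) ∧
    Alt (1 + r) (2 + r) (3 + r) (5 + r) := by
  decide

theorem union_ge (k : ℕ) (h : UnionEmbedding (⊤ : SimpleGraph (Fin 6)) k) : 3 ≤ k := by
  by_contra hk
  obtain ⟨f, P, hf, h1, h2⟩ := h
  obtain ⟨v, hv, hs⟩ := sorted f hf
  have hne : ∀ a b : Fin 6, a ≠ b → (⊤ : SimpleGraph (Fin 6)).Adj (v a) (v b) :=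
    fun a b hab => fun h => hab (hv h)
  set p : Fin 6 → Fin 6 → ℕ := fun a b => P s(v a, v b) with hp
  have psymm : ∀ a b, p a b = p b a := fun a b => by
    simp only [hp]
    rw [Sym2.eq_swap]
  have plt : ∀ a b, a ≠ b → p a b < 2 := fun a b hab => by
    have := h1 (v a) (v b) (hne a b hab)
    simp only [hp]
    omega
  -- reachability in a page
  set R : ℕ → Fin 6 → Fin 6 → Prop := fun i a b =>
    (pageGraph (⊤ : SimpleGraph (Fin 6)) P i).Reachable (v a) (v b) with hR
  have Rsymm : ∀ i a b, R i a b → R i b a := fun i a b h => SimpleGraph.Reachable.symm h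
  have Rtrans : ∀ i a b c, R i a b → R i b c → R i a c := fun i a b c h h' =>
    SimpleGraph.Reachable.trans h h'
  have Redge : ∀ i a b, a ≠ b → p a b = i → R i a b := fun i a b hab hi =>
    SimpleGraph.Adj.reachable (⟨hne a b hab, hi⟩ :
      (pageGraph (⊤ : SimpleGraph (Fin 6)) P i).Adj (v a) (v b))
  have cross0 : ∀ i a b c d, a < b → b < c → c < d → p a c = i → p b d = i → ¬ R i a b := by
    intro i a b c d hab hbc hcd h3 h4
    have := h2 (v a) (v c) (v b) (v d) (hne _ _ (hab.trans hbc).ne) (hne _ _ (hbc.trans hcd).ne)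
      (hs _ _ hab) (hs _ _ hbc) (hs _ _ hcd) (h3.trans h4.symm)
    rw [show P s(v a, v c) = i from h3] at this
    exact this
  have cross : ∀ i a b c d, Alt a b c d → p a c = i → p b d = i → ¬ R i a b := by
    intro i a b c d hA h3 h4 h5
    rcases hA with ⟨x, y, z⟩ | ⟨x, y, z⟩ | ⟨x, y, z⟩ | ⟨x, y, z⟩
    · exact cross0 i a b c d x y z h3 h4 h5
    · -- b < c < d < a
      have hac : a ≠ c := (y.trans z).ne'
      exact cross0 i b c d a x y z h4 (by rw [psymm]; exact h3)
        (Rtrans _ _ _ _ (Rsymm _ _ _ h5) (Redge i a c hac h3))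
    · -- c < d < a < b
      have hac : a ≠ c := (x.trans y).ne'
      have hbd : b ≠ d := (y.trans z).ne'
      exact cross0 i c d a b x y z (by rw [psymm]; exact h3) (by rw [psymm]; exact h4)
        (Rtrans _ _ _ _ (Rsymm _ _ _ (Redge i a c hac h3))
          (Rtrans _ _ _ _ h5 (Redge i b d hbd h4)))
    · -- d < a < b < c
      have hbd : b ≠ d := (x.trans y).ne'
      exact cross0 i d a b c x y z (by rw [psymm]; exact h4) h3
        (Rsymm _ _ _ (Rtrans _ _ _ _ h5 (Redge i b d hbd h4)))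
  have main : ∀ r : Fin 6, p (0 + r) (3 + r) = p (1 + r) (4 + r) → False := by
    intro r hr
    obtain ⟨n01, n02, n03, n12, n13, n14, n25⟩ := rot_ne r
    obtain ⟨a1, a2, a3, a4⟩ := rot_alt r
    generalize (0 + r) = c0 at *
    generalize (1 + r) = c1 at *
    generalize (2 + r) = c2 at *
    generalize (3 + r) = c3 at *
    generalize (4 + r) = c4 at *
    generalize (5 + r) = c5 at *
    obtain ⟨i, hi⟩ : ∃ i, p c0 c3 = i := ⟨_, rfl⟩
    have hi2 : i < 2 := hi ▸ plt c0 c3 n03
    have h14 : p c1 c4 = i := by rw [← hr, hi]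
    have nR : ¬ R i c0 c1 := cross i c0 c1 c3 c4 a1 hi h14
    have p01 : p c0 c1 = 1 - i := by
      have h3 : p c0 c1 ≠ i := fun h => nR (Redge i c0 c1 n01 h)
      have h4 := plt c0 c1 n01
      omega
    have p13 : p c1 c3 = 1 - i := by
      have h3 : p c1 c3 ≠ i := fun h =>
        nR (Rtrans _ _ _ _ (Redge i c0 c3 n03 hi) (Rsymm _ _ _ (Redge i c1 c3 n13 h)))
      have h4 := plt c1 c3 n13
      omega
    have h25 := plt c2 c5 n25
    by_cases hc : p c2 c5 = i
    · have nR2 : ¬ R i c0 c2 := cross i c0 c2 c3 c5 a2 hi hc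
      have p02 : p c0 c2 = 1 - i := by
        have h3 : p c0 c2 ≠ i := fun h => nR2 (Redge i c0 c2 n02 h)
        have h4 := plt c0 c2 n02
        omega
      exact cross (1 - i) c0 c1 c2 c3 a3 p02 p13 (Redge _ c0 c1 n01 p01)
    · have hc' : p c2 c5 = 1 - i := by omega
      have nR3 : ¬ R (1 - i) c1 c2 := cross (1 - i) c1 c2 c3 c5 a4 p13 hc'
      have p12 : p c1 c2 = i := by
        have h3 : p c1 c2 ≠ 1 - i := fun h => nR3 (Redge _ c1 c2 n12 h)
        have h4 := plt c1 c2 n12
        omega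
      have p02 : p c0 c2 = i := by
        have h3 : p c0 c2 ≠ 1 - i := fun h =>
          nR3 (Rtrans _ _ _ _ (Rsymm _ _ _ (Redge _ c0 c1 n01 p01)) (Redge _ c0 c2 n02 h))
        have h4 := plt c0 c2 n02
        omega
      exact nR (Rtrans _ _ _ _ (Redge i c0 c2 n02 p02) (Rsymm _ _ _ (Redge i c1 c2 n12 p12)))
  have m0 : p 0 3 ≠ p 1 4 := fun h => main 0 (by
    rw [show (0 + 0 : Fin 6) = 0 by decide, show (3 + 0 : Fin 6) = 3 by decide,
      show (1 + 0 : Fin 6) = 1 by decide, show (4 + 0 : Fin 6) = 4 by decide]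
    exact h)
  have m1 : p 1 4 ≠ p 2 5 := fun h => main 1 (by
    rw [show (0 + 1 : Fin 6) = 1 by decide, show (3 + 1 : Fin 6) = 4 by decide,
      show (1 + 1 : Fin 6) = 2 by decide, show (4 + 1 : Fin 6) = 5 by decide]
    exact h)
  have m2 : p 2 5 ≠ p 0 3 := fun h => main 2 (by
    rw [show (0 + 2 : Fin 6) = 2 by decide, show (3 + 2 : Fin 6) = 5 by decide,
      show (1 + 2 : Fin 6) = 3 by decide, show (4 + 2 : Fin 6) = 0 by decide, psymm 3 0]
    exact h)
  have q03 : p 0 3 < 2 := plt 0 3 (by decide)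
  have q14 : p 1 4 < 2 := plt 1 4 (by decide)
  have q25 : p 2 5 < 2 := plt 2 5 (by decide)
  generalize p 0 3 = A at *
  generalize p 1 4 = B at *
  generalize p 2 5 = C at *
  omega

/-- **Theorem.** The complete graph on six vertices has local page number `2` and union page number
`3`. In particular the supremum of the ratios of union page number and local page number is at least
`3 / 2`. -/
theorem result :
    localPageNumber (⊤ : SimpleGraph (Fin 6)) = 2 ∧
      unionPageNumber (⊤ : SimpleGraph (Fin 6)) = 3 ∧ 3 / 2 ≤ rho := by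
  have hl : localPageNumber (⊤ : SimpleGraph (Fin 6)) = 2 := by
    refine le_antisymm (Nat.sInf_le local_two) ?_
    exact local_ge _ (Nat.sInf_mem (s := {k : ℕ | LocalEmbedding (⊤ : SimpleGraph (Fin 6)) k})
      ⟨2, local_two⟩)
  have hu : unionPageNumber (⊤ : SimpleGraph (Fin 6)) = 3 := by
    refine le_antisymm (Nat.sInf_le union_three) ?_
    exact union_ge _ (Nat.sInf_mem (s := {k : ℕ | UnionEmbedding (⊤ : SimpleGraph (Fin 6)) k})
      ⟨3, union_three⟩)
  refine ⟨hl, hu, ?_⟩
  have hne : (⊤ : SimpleGraph (Fin 6)) ≠ ⊥ := by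
    intro h
    have h1 : (⊤ : SimpleGraph (Fin 6)).Adj 0 1 := by decide
    rw [h] at h1
    exact h1
  refine le_trans ?_ (le_iSup_of_le 6 (le_iSup_of_le (⊤ : SimpleGraph (Fin 6))
    (le_iSup_of_le hne le_rfl)))
  rw [hl, hu]
  norm_num

end Pool.Agent.Results.MP_1a9d8b_co.RatioThreeHalves
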